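import Mathlib

set_option autoImplicit false

/-!
# The quantifier number for separating sets of binary strings

We show that `q n - n / log n` tends to infinity; more precisely, for every `ε > 0`,
`q n ≥ n / log n + (1 - ε) * n * log (log n) / (log n)^2` for all large `n` (base 2 logarithms).

The proof is the counting argument with a careful count of the quantifier-free types: there are at
most `(2 k)^k` of them for `k` variables, so that `2 ^ n ≤ k + (2 k)^k` whenever all sets of
`n`-bit strings are defined with `k` quantifiers.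
-/

namespace Pool.Agent.Results.MP_ce8f12_lc.UnboundedExcess

/-- First-order formulas in the vocabulary `{≤, P}` with equality, whose free variables are among
`x_0, ..., x_{m-1}`.  In `ex φ` and `all φ` the quantified variable is the last variable
`x_m` of `φ`. -/
inductive Fml : ℕ → Type
  | tru {m : ℕ} : Fml m
  | fls {m : ℕ} : Fml m
  | le {m : ℕ} (i j : Fin m) : Fml m
  | eq {m : ℕ} (i j : Fin m) : Fml m
  | P {m : ℕ} (i : Fin m) : Fml m
  | neg {m : ℕ} (φ : Fml m) : Fml m
  | and {m : ℕ} (φ ψ : Fml m) : Fml m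
  | or {m : ℕ} (φ ψ : Fml m) : Fml m
  | ex {m : ℕ} (φ : Fml (m + 1)) : Fml m
  | all {m : ℕ} (φ : Fml (m + 1)) : Fml m

/-- The extension of the assignment `v` of `x_0, ..., x_{m-1}` which gives `x_m` the value `a`. -/
def ext {n m : ℕ} (v : Fin m → Fin n) (a : Fin n) : Fin (m + 1) → Fin n :=
  Fin.snoc (α := fun _ => Fin n) v a

/-- Satisfaction of a formula in the binary string `w` of length `n` (a structure with universe
`Fin n` with its usual order, in which `P i` holds iff the `i`-th bit of `w` is `1`). -/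
def Sat {n : ℕ} (w : Fin n → Bool) : {m : ℕ} → Fml m → (Fin m → Fin n) → Prop
  | _, .tru, _ => True
  | _, .fls, _ => False
  | _, .le i j, v => v i ≤ v j
  | _, .eq i j, v => v i = v j
  | _, .P i, v => w (v i) = true
  | _, .neg φ, v => ¬ Sat w φ v
  | _, .and φ ψ, v => Sat w φ v ∧ Sat w ψ v
  | _, .or φ ψ, v => Sat w φ v ∨ Sat w ψ v
  | _, .ex φ, v => ∃ a : Fin n, Sat w φ (ext v a)
  | _, .all φ, v => ∀ a : Fin n, Sat w φ (ext v a)

/-- The quantifier number: the number of occurrences of quantifiers. -/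
def qn : {m : ℕ} → Fml m → ℕ
  | _, .tru => 0
  | _, .fls => 0
  | _, .le _ _ => 0
  | _, .eq _ _ => 0
  | _, .P _ => 0
  | _, .neg φ => qn φ
  | _, .and φ ψ => qn φ + qn ψ
  | _, .or φ ψ => qn φ + qn ψ
  | _, .ex φ => qn φ + 1
  | _, .all φ => qn φ + 1

/-- A sentence is a formula without free variables. -/
abbrev Sentence : Type := Fml 0

/-- The sentence `φ` is true in the string `w`. -/
def Holds {n : ℕ} (w : Fin n → Bool) (φ : Sentence) : Prop := Sat w φ Fin.elim0

/-- The sentence `φ` separates `(A, B)`: it is true in every string of `A` and false in every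
string of `B`. -/
def Separates {n : ℕ} (φ : Sentence) (A B : Set (Fin n → Bool)) : Prop :=
  (∀ w ∈ A, Holds w φ) ∧ ∀ w ∈ B, ¬ Holds w φ

/-- `q n` is the least `k` such that every pair of disjoint sets of `n`-bit strings is separated by
some sentence with at most `k` quantifiers. -/
noncomputable def q (n : ℕ) : ℕ :=
  sInf {k : ℕ | ∀ A B : Set (Fin n → Bool), Disjoint A B →
    ∃ φ : Sentence, qn φ ≤ k ∧ Separates φ A B}

/-! ### Every pair is separated: `q n` is well defined -/

/-- Conjunction of a list of formulas. -/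
def conj {m : ℕ} : List (Fml m) → Fml m
  | [] => .tru
  | φ :: l => .and φ (conj l)

/-- Disjunction of a list of formulas. -/
def disj {m : ℕ} : List (Fml m) → Fml m
  | [] => .fls
  | φ :: l => .or φ (disj l)

theorem sat_conj {n m : ℕ} (w : Fin n → Bool) (v : Fin m → Fin n) (l : List (Fml m)) :
    Sat w (conj l) v ↔ ∀ φ ∈ l, Sat w φ v := by
  induction l with
  | nil => simp [conj, Sat]
  | cons φ l ih => simp [conj, Sat, ih]

theorem sat_disj {n m : ℕ} (w : Fin n → Bool) (v : Fin m → Fin n) (l : List (Fml m)) :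
    Sat w (disj l) v ↔ ∃ φ ∈ l, Sat w φ v := by
  induction l with
  | nil => simp [disj, Sat]
  | cons φ l ih => simp [disj, Sat, ih]

/-- Existential closure. -/
def exs : (m : ℕ) → Fml m → Sentence
  | 0, φ => φ
  | m + 1, φ => exs m (.ex φ)

theorem holds_exs {n : ℕ} (w : Fin n → Bool) : ∀ (m : ℕ) (φ : Fml m),
    Holds w (exs m φ) ↔ ∃ v : Fin m → Fin n, Sat w φ v
  | 0, φ => by
    constructor
    · intro h; exact ⟨Fin.elim0, h⟩
    · rintro ⟨v, hv⟩
      have : v = Fin.elim0 := Subsingleton.elim _ _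
      rw [this] at hv; exact hv
  | m + 1, φ => by
    rw [exs, holds_exs w m]
    constructor
    · rintro ⟨v, a, h⟩; exact ⟨_, h⟩
    · rintro ⟨v, h⟩
      refine ⟨Fin.init v, v (Fin.last m), ?_⟩
      have : ext (Fin.init v) (v (Fin.last m)) = v := Fin.snoc_init_self v
      change Sat w φ (ext (Fin.init v) (v (Fin.last m)))
      rw [this]; exact h

/-- The quantifier-free formula saying that `x_0 < x_1 < ...` and the bits are as in `w₀`. -/
def diag {n : ℕ} (w₀ : Fin n → Bool) : Fml n :=
  .and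
    (conj ((List.finRange n).flatMap fun i => (List.finRange n).map fun j =>
      if i < j then .neg (.le j i) else .tru))
    (conj ((List.finRange n).map fun i => if w₀ i then .P i else .neg (.P i)))

theorem sat_diag {n : ℕ} (w₀ w : Fin n → Bool) (v : Fin n → Fin n) :
    Sat w (diag w₀) v ↔ StrictMono v ∧ ∀ i, w (v i) = w₀ i := by
  simp only [diag, Sat, sat_conj, List.mem_flatMap, List.mem_map, List.mem_finRange, true_and]
  constructor
  · rintro ⟨h1, h2⟩
    refine ⟨?_, ?_⟩
    · intro i j hij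
      have := h1 _ ⟨i, j, rfl⟩
      rw [if_pos hij] at this
      simpa [Sat] using this
    · intro i
      have := h2 _ ⟨i, rfl⟩
      split_ifs at this with h
      · simp only [Sat] at this; rw [this, h]
      · simp only [Sat] at this
        simp only [Bool.not_eq_true] at this h
        rw [this, h]
  · rintro ⟨h1, h2⟩
    refine ⟨?_, ?_⟩
    · rintro _ ⟨i, j, rfl⟩
      split_ifs with h
      · simpa [Sat] using h1 h
      · trivial
    · rintro _ ⟨i, rfl⟩
      split_ifs with h
      · simp only [Sat]; rw [h2 i, h]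
      · simp only [Sat]; rw [h2 i]; exact h

theorem holds_diag {n : ℕ} (w₀ w : Fin n → Bool) : Holds w (exs n (diag w₀)) ↔ w = w₀ := by
  rw [holds_exs]
  simp only [sat_diag]
  constructor
  · rintro ⟨v, hv, h⟩
    have hid : v = id := by
      have h1 : ∀ i : Fin n, i ≤ v i := fun i => hv.le_apply
      have h2 : ∀ i : Fin n, v i ≤ i := by
        intro i
        have hbij : Function.Bijective v := Finite.injective_iff_bijective.mp hv.injective
        exact (StrictMono.range_inj hv strictMono_id).mp (by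
          rw [hbij.surjective.range_eq, Set.range_id]) ▸ le_refl _
      funext i
      exact le_antisymm (h2 i) (h1 i)
    subst hid
    funext i; exact h i
  · rintro rfl
    exact ⟨id, strictMono_id, fun i => rfl⟩

theorem exists_separating {n : ℕ} (A B : Set (Fin n → Bool)) (hAB : Disjoint A B) :
    ∃ φ : Sentence, Separates φ A B := by
  classical
  refine ⟨disj (A.toFinite.toFinset.toList.map fun w => exs n (diag w)), ?_, ?_⟩
  · intro w hw
    rw [Holds, sat_disj]
    refine ⟨exs n (diag w), ?_, (holds_diag w w).mpr rfl⟩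
    rw [List.mem_map]
    exact ⟨w, Finset.mem_toList.mpr (A.toFinite.mem_toFinset.mpr hw), rfl⟩
  · intro w hw
    rw [Holds, sat_disj]
    rintro ⟨φ, hφ, hs⟩
    rw [List.mem_map] at hφ
    obtain ⟨w', hw', rfl⟩ := hφ
    have : w = w' := (holds_diag w' w).mp hs
    subst this
    have hwA : w ∈ A := A.toFinite.mem_toFinset.mp (Finset.mem_toList.mp hw')
    exact Set.disjoint_left.mp hAB hwA hw

theorem q_set_nonempty (n : ℕ) : {k : ℕ | ∀ A B : Set (Fin n → Bool), Disjoint A B →
    ∃ φ : Sentence, qn φ ≤ k ∧ Separates φ A B}.Nonempty := by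
  classical
  have h : ∀ p : Set (Fin n → Bool) × Set (Fin n → Bool), ∃ φ : Sentence,
      Disjoint p.1 p.2 → Separates φ p.1 p.2 := by
    intro p
    by_cases hp : Disjoint p.1 p.2
    · obtain ⟨φ, hφ⟩ := exists_separating p.1 p.2 hp
      exact ⟨φ, fun _ => hφ⟩
    · exact ⟨.tru, fun h => absurd h hp⟩
  choose φ hφ using h
  obtain ⟨K, hK⟩ := (Set.finite_range fun p => qn (φ p)).bddAbove
  refine ⟨K, fun A B hAB => ⟨φ (A, B), hK ⟨(A, B), rfl⟩, hφ (A, B) hAB⟩⟩

/-- The defining property of `q n`. -/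
theorem q_spec {n : ℕ} (A B : Set (Fin n → Bool)) (hAB : Disjoint A B) :
    ∃ φ : Sentence, qn φ ≤ q n ∧ Separates φ A B :=
  Nat.sInf_mem (q_set_nonempty n) A B hAB

/-! ### Relations definable with `k` quantifiers -/

/-- Relations between strings and `m`-tuples of positions. -/
abbrev Rel (n m : ℕ) : Type := (Fin n → Bool) → (Fin m → Fin n) → Prop

/-- A relation is quantifier-free if it depends only on the order type and the bits of the tuple. -/
def QF {n m : ℕ} (R : Rel n m) : Prop :=
  ∀ (w w' : Fin n → Bool) (v v' : Fin m → Fin n), (∀ i j, v i ≤ v j ↔ v' i ≤ v' j) →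
    (∀ i, w (v i) = w' (v' i)) → (R w v ↔ R w' v')

/-- `Pre n k m R`: the relation `R` is given by a block of `k` quantifiers followed by a
quantifier-free relation. -/
inductive Pre (n : ℕ) : (k m : ℕ) → Rel n m → Prop
  | qf {m : ℕ} {R : Rel n m} (h : QF R) : Pre n 0 m R
  | ex {k m : ℕ} {R : Rel n (m + 1)} (h : Pre n k (m + 1) R) :
      Pre n (k + 1) m (fun w v => ∃ a, R w (ext v a))
  | all {k m : ℕ} {R : Rel n (m + 1)} (h : Pre n k (m + 1) R) :
      Pre n (k + 1) m (fun w v => ∀ a, R w (ext v a))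

theorem Pre.congr {n k m : ℕ} {R R' : Rel n m} (h : Pre n k m R)
    (hR : ∀ w v, R w v ↔ R' w v) : Pre n k m R' := by
  have : R = R' := by
    funext w v; exact propext (hR w v)
  rw [← this]; exact h

theorem Pre.neg {n k m : ℕ} {R : Rel n m} (h : Pre n k m R) :
    Pre n k m (fun w v => ¬ R w v) := by
  induction h with
  | qf h => exact .qf fun w w' v v' h1 h2 => not_congr (h w w' v v' h1 h2)
  | ex _ ih => exact (Pre.all ih).congr fun w v => by simp
  | all _ ih => exact (Pre.ex ih).congr fun w v => by simp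

/-- Lifting of a map of variables. -/
def liftVar {m m' : ℕ} (σ : Fin m → Fin m') : Fin (m + 1) → Fin (m' + 1) :=
  Fin.snoc (α := fun _ => Fin (m' + 1)) (fun i => (σ i).castSucc) (Fin.last m')

theorem ext_comp_lift {n m m' : ℕ} (σ : Fin m → Fin m') (v : Fin m' → Fin n) (a : Fin n) :
    ext v a ∘ liftVar σ = ext (v ∘ σ) a := by
  funext i
  refine Fin.lastCases ?_ (fun j => ?_) i
  · simp [ext, liftVar]
  · simp [ext, liftVar]

theorem ext_comp_castSucc {n m : ℕ} (v : Fin m → Fin n) (a : Fin n) :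
    ext v a ∘ Fin.castSucc = v := by
  funext i; simp [ext]

theorem Pre.subst {n k m : ℕ} {R : Rel n m} (h : Pre n k m R) :
    ∀ {m' : ℕ} (σ : Fin m → Fin m'), Pre n k m' (fun w v => R w (v ∘ σ)) := by
  induction h with
  | qf h =>
    intro m' σ
    exact .qf fun w w' v v' h1 h2 => h w w' _ _ (fun i j => h1 (σ i) (σ j)) fun i => h2 (σ i)
  | ex _ ih =>
    intro m' σ
    exact (Pre.ex (ih (liftVar σ))).congr fun w v => by simp only [ext_comp_lift]
  | all _ ih =>
    intro m' σ
    exact (Pre.all (ih (liftVar σ))).congr fun w v => by simp only [ext_comp_lift]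

theorem QF.weaken {n m : ℕ} {R : Rel n m} (h : QF R) :
    QF (fun (w : Fin n → Bool) (v : Fin (m + 1) → Fin n) => R w (v ∘ Fin.castSucc)) :=
  fun w w' _ _ h1 h2 => h w w' _ _ (fun _ _ => h1 _ _) fun _ => h2 _

theorem Pre.qf_and {n k m : ℕ} (hn : 0 < n) {R' : Rel n m} (h' : Pre n k m R') :
    ∀ {R : Rel n m}, QF R → Pre n k m (fun w v => R w v ∧ R' w v) := by
  have : Nonempty (Fin n) := ⟨⟨0, hn⟩⟩
  induction h' with
  | qf h' =>
    intro R hR
    exact .qf fun w w' v v' h1 h2 => and_congr (hR w w' v v' h1 h2) (h' w w' v v' h1 h2)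
  | ex _ ih =>
    intro R hR
    refine (Pre.ex (ih hR.weaken)).congr fun w v => ?_
    simp only [ext_comp_castSucc, exists_and_left]
  | all _ ih =>
    intro R hR
    refine (Pre.all (ih hR.weaken)).congr fun w v => ?_
    simp only [ext_comp_castSucc, forall_and, forall_const]

theorem Pre.and {n k m : ℕ} (hn : 0 < n) {R : Rel n m} (h : Pre n k m R) :
    ∀ {l : ℕ} {R' : Rel n m}, Pre n l m R' → Pre n (k + l) m (fun w v => R w v ∧ R' w v) := by
  have : Nonempty (Fin n) := ⟨⟨0, hn⟩⟩
  induction h with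
  | qf h =>
    intro l R' h'
    rw [Nat.zero_add]
    exact h'.qf_and hn h
  | @ex k m R _ ih =>
    intro l R' h'
    have h1 : k + 1 + l = (k + l) + 1 := by omega
    rw [h1]
    refine (Pre.ex (ih (h'.subst Fin.castSucc))).congr fun w v => ?_
    simp only [ext_comp_castSucc, exists_and_right]
  | @all k m R _ ih =>
    intro l R' h'
    have h1 : k + 1 + l = (k + l) + 1 := by omega
    rw [h1]
    refine (Pre.all (ih (h'.subst Fin.castSucc))).congr fun w v => ?_
    simp only [ext_comp_castSucc, forall_and, forall_const]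

theorem Pre.or {n k l m : ℕ} (hn : 0 < n) {R R' : Rel n m} (h : Pre n k m R)
    (h' : Pre n l m R') : Pre n (k + l) m (fun w v => R w v ∨ R' w v) :=
  ((h.neg.and hn h'.neg).neg).congr fun w v => by tauto

theorem Pre.succ {n k m : ℕ} (hn : 0 < n) {R : Rel n m} (h : Pre n k m R) :
    Pre n (k + 1) m R := by
  have : Nonempty (Fin n) := ⟨⟨0, hn⟩⟩
  refine (Pre.ex (h.subst Fin.castSucc)).congr fun w v => ?_
  simp only [ext_comp_castSucc, exists_const]

theorem Pre.mono {n k k' m : ℕ} (hn : 0 < n) {R : Rel n m} (h : Pre n k m R) (hk : k ≤ k') :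
    Pre n k' m R := by
  induction k', hk using Nat.le_induction with
  | base => exact h
  | succ k' _ ih => exact ih.succ hn

/-- Every formula defines a relation given by a block of `qn φ` quantifiers followed by a
quantifier-free relation. -/
theorem pre_sat {n : ℕ} (hn : 0 < n) : ∀ {m : ℕ} (φ : Fml m),
    Pre n (qn φ) m (fun w v => Sat w φ v)
  | _, .tru => .qf fun _ _ _ _ _ _ => Iff.rfl
  | _, .fls => .qf fun _ _ _ _ _ _ => Iff.rfl
  | _, .le i j => .qf fun _ _ _ _ h1 _ => h1 i j
  | _, .eq i j => .qf fun w w' v v' h1 _ => by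
      change v i = v j ↔ v' i = v' j
      rw [le_antisymm_iff, le_antisymm_iff, h1 i j, h1 j i]
  | _, .P i => .qf fun w w' v v' _ h2 => by
      change w (v i) = true ↔ w' (v' i) = true
      rw [h2 i]
  | _, .neg φ => (pre_sat hn φ).neg
  | _, .and φ ψ => (pre_sat hn φ).and hn (pre_sat hn ψ)
  | _, .or φ ψ => (pre_sat hn φ).or hn (pre_sat hn ψ)
  | _, .ex φ => .ex (pre_sat hn φ)
  | _, .all φ => .all (pre_sat hn φ)

/-! ### Counting -/

/-- The rank of the `i`-th entry of a tuple: the number of values in the tuple below it. -/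
noncomputable def rank {n m : ℕ} (v : Fin m → Fin n) (i : Fin m) : ℕ :=
  ((Finset.univ.image v).filter (· < v i)).card

theorem rank_lt {n m : ℕ} (v : Fin m → Fin n) (i : Fin m) : rank v i < m := by
  have h1 : (Finset.univ.image v).filter (· < v i) ⊂ Finset.univ.image v := by
    rw [Finset.ssubset_iff_of_subset (Finset.filter_subset _ _)]
    refine ⟨v i, Finset.mem_image_of_mem _ (Finset.mem_univ _), ?_⟩
    simp
  have h2 : (Finset.univ.image v).card ≤ m := by
    simpa using Finset.card_image_le (s := (Finset.univ : Finset (Fin m))) (f := v)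
  exact lt_of_lt_of_le (Finset.card_lt_card h1) h2

theorem rank_le_iff {n m : ℕ} (v : Fin m → Fin n) (i j : Fin m) :
    rank v i ≤ rank v j ↔ v i ≤ v j := by
  constructor
  · intro h
    by_contra hc
    push Not at hc
    have h1 : (Finset.univ.image v).filter (· < v j) ⊂ (Finset.univ.image v).filter (· < v i) := by
      rw [Finset.ssubset_iff_of_subset]
      · refine ⟨v j, ?_, ?_⟩
        · rw [Finset.mem_filter]
          exact ⟨Finset.mem_image_of_mem _ (Finset.mem_univ _), hc⟩
        · simp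
      · intro x hx
        rw [Finset.mem_filter] at hx ⊢
        exact ⟨hx.1, lt_trans hx.2 hc⟩
    have := Finset.card_lt_card h1
    unfold rank at h
    omega
  · intro h
    apply Finset.card_le_card
    intro x hx
    rw [Finset.mem_filter] at hx ⊢
    exact ⟨hx.1, lt_of_lt_of_le hx.2 h⟩

/-- The code of the quantifier-free type of a tuple. -/
noncomputable def code {n m : ℕ} (w : Fin n → Bool) (v : Fin m → Fin n) :
    Fin m → Fin m × Bool :=
  fun i => (⟨rank v i, rank_lt v i⟩, w (v i))

theorem code_eq {n m : ℕ} {w w' : Fin n → Bool} {v v' : Fin m → Fin n}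
    (h : code w v = code w' v') :
    (∀ i j, v i ≤ v j ↔ v' i ≤ v' j) ∧ ∀ i, w (v i) = w' (v' i) := by
  have h1 : ∀ i, rank v i = rank v' i := by
    intro i
    have := congrArg (fun f => ((f i).1 : ℕ)) h
    simpa [code] using this
  refine ⟨fun i j => ?_, fun i => ?_⟩
  · rw [← rank_le_iff, ← rank_le_iff, h1 i, h1 j]
  · have := congrArg (fun f => (f i).2) h
    simpa [code] using this

theorem ncard_qf (n m : ℕ) : {R : Rel n m | QF R}.ncard ≤ 2 ^ ((2 * m) ^ m) := by
  classical
  have h1 : Nat.card (Set (Fin m → Fin m × Bool)) = 2 ^ ((2 * m) ^ m) := by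
    rw [Nat.card_eq_fintype_card]
    simp [mul_comm]
  rw [← h1, ← Set.ncard_univ]
  apply Set.ncard_le_ncard_of_injOn
    (f := fun R : Rel n m => {c | ∃ w v, code w v = c ∧ R w v})
  · intro R _; exact Set.mem_univ _
  · intro R hR R' hR' h
    funext w v
    apply propext
    constructor
    · intro h2
      have h3 : code w v ∈ {c | ∃ w v, code w v = c ∧ R w v} := ⟨w, v, rfl, h2⟩
      simp only at h
      rw [h] at h3
      obtain ⟨w', v', h4, h5⟩ := h3
      obtain ⟨h6, h7⟩ := code_eq h4
      exact (hR' w' w v' v h6 h7).mp h5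
    · intro h2
      have h3 : code w v ∈ {c | ∃ w v, code w v = c ∧ R' w v} := ⟨w, v, rfl, h2⟩
      simp only at h
      rw [← h] at h3
      obtain ⟨w', v', h4, h5⟩ := h3
      obtain ⟨h6, h7⟩ := code_eq h4
      exact (hR w' w v' v h6 h7).mp h5

theorem ncard_pre (n : ℕ) : ∀ k m : ℕ,
    {R : Rel n m | Pre n k m R}.ncard ≤ 2 ^ k * 2 ^ ((2 * (m + k)) ^ (m + k))
  | 0, m => by
    have h1 : {R : Rel n m | Pre n 0 m R} ⊆ {R : Rel n m | QF R} := by
      intro R hR
      cases hR with
      | qf h => exact h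
    calc _ ≤ {R : Rel n m | QF R}.ncard := Set.ncard_le_ncard h1 (Set.toFinite _)
      _ ≤ 2 ^ ((2 * m) ^ m) := ncard_qf n m
      _ = _ := by simp
  | k + 1, m => by
    have ih := ncard_pre n k (m + 1)
    have h1 : {R : Rel n m | Pre n (k + 1) m R} ⊆
        ((fun R : Rel n (m + 1) => (fun w v => ∃ a, R w (ext v a) : Rel n m)) ''
          {R | Pre n k (m + 1) R}) ∪
        ((fun R : Rel n (m + 1) => (fun w v => ∀ a, R w (ext v a) : Rel n m)) ''
          {R | Pre n k (m + 1) R}) := by
      intro R hR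
      cases hR with
      | ex h => exact Or.inl ⟨_, h, rfl⟩
      | all h => exact Or.inr ⟨_, h, rfl⟩
    have h2 := Set.ncard_le_ncard h1 (Set.toFinite _)
    have h3 := Set.ncard_union_le
      ((fun R : Rel n (m + 1) => (fun w v => ∃ a, R w (ext v a) : Rel n m)) ''
          {R | Pre n k (m + 1) R})
      ((fun R : Rel n (m + 1) => (fun w v => ∀ a, R w (ext v a) : Rel n m)) ''
          {R | Pre n k (m + 1) R})
    have h4 := Set.ncard_image_le (Set.toFinite {R : Rel n (m + 1) | Pre n k (m + 1) R})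
      (f := (fun R : Rel n (m + 1) => (fun w v => ∃ a, R w (ext v a) : Rel n m)))
    have h5 := Set.ncard_image_le (Set.toFinite {R : Rel n (m + 1) | Pre n k (m + 1) R})
      (f := (fun R : Rel n (m + 1) => (fun w v => ∀ a, R w (ext v a) : Rel n m)))
    have h6 : m + 1 + k = m + (k + 1) := by omega
    rw [h6] at ih
    have h7 : 2 ^ (k + 1) * 2 ^ ((2 * (m + (k + 1))) ^ (m + (k + 1))) =
        2 * (2 ^ k * 2 ^ ((2 * (m + (k + 1))) ^ (m + (k + 1)))) := by ring
    omega

/-- The counting bound. -/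
theorem two_pow_le {n : ℕ} (hn : 0 < n) : 2 ^ n ≤ q n + (2 * q n) ^ q n := by
  classical
  have h1 : Nat.card (Set (Fin n → Bool)) = 2 ^ (2 ^ n) := by
    rw [Nat.card_eq_fintype_card]
    simp
  have h2 : Nat.card (Set (Fin n → Bool)) ≤ {R : Rel n 0 | Pre n (q n) 0 R}.ncard := by
    rw [← Set.ncard_univ]
    apply Set.ncard_le_ncard_of_injOn
      (f := fun (A : Set (Fin n → Bool)) => (fun w _ => w ∈ A : Rel n 0))
    · intro A _
      obtain ⟨φ, hφ, hs1, hs2⟩ := q_spec A Aᶜ disjoint_compl_right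
      refine ((pre_sat hn φ).mono hn hφ).congr fun w v => ?_
      have hv : v = Fin.elim0 := Subsingleton.elim _ _
      subst hv
      constructor
      · intro h
        by_contra hc
        exact hs2 w hc h
      · intro h; exact hs1 w h
    · intro A _ B _ h
      ext w
      have := congrFun (congrFun h w) Fin.elim0
      exact iff_of_eq this
  have h3 := ncard_pre n (q n) 0
  rw [Nat.zero_add, ← pow_add] at h3
  rw [h1] at h2
  exact (Nat.pow_le_pow_iff_right (by norm_num)).mp (h2.trans h3)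

/-! ### Asymptotics -/

/-- The counting bound in logarithmic form. -/
theorem le_q_mul {n : ℕ} (hn : 0 < n) :
    0 < q n ∧ (n : ℝ) ≤ q n * (2 + Real.logb 2 (q n)) := by
  have h := two_pow_le hn
  have hk : 0 < q n := by
    rcases Nat.eq_zero_or_pos (q n) with h0 | h0
    · rw [h0] at h
      have : 2 ^ 1 ≤ 2 ^ n := Nat.pow_le_pow_right (by norm_num) hn
      simp at h
      omega
    · exact h0
  refine ⟨hk, ?_⟩
  set k := q n with hkdef
  have h1 : k ≤ (2 * k) ^ k := by
    calc k ≤ 2 * k := by omega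
      _ = (2 * k) ^ 1 := (pow_one _).symm
      _ ≤ (2 * k) ^ k := Nat.pow_le_pow_right (by omega) hk
  have h2 : k + (2 * k) ^ k ≤ (4 * k) ^ k := by
    have h3 : (4 * k) ^ k = 2 ^ k * (2 * k) ^ k := by
      rw [← mul_pow]; congr 1; ring
    have h4 : 2 ≤ 2 ^ k := by
      calc 2 = 2 ^ 1 := (pow_one _).symm
        _ ≤ 2 ^ k := Nat.pow_le_pow_right (by norm_num) hk
    rw [h3]
    calc k + (2 * k) ^ k ≤ 2 * (2 * k) ^ k := by omega
      _ ≤ 2 ^ k * (2 * k) ^ k := Nat.mul_le_mul_right _ h4
  have h3 : (2 : ℝ) ^ n ≤ (4 * (k : ℝ)) ^ k := by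
    have := h.trans h2
    exact_mod_cast this
  have hkR : (0 : ℝ) < k := by exact_mod_cast hk
  have h4 := Real.logb_le_logb_of_le (b := 2) (by norm_num) (by positivity) h3
  rw [Real.logb_pow, Real.logb_pow, Real.logb_mul (by norm_num) hkR.ne'] at h4
  have h5 : Real.logb 2 2 = 1 := Real.logb_self_eq_one (by norm_num)
  have h6 : Real.logb 2 4 = 2 := by
    have : (4 : ℝ) = 2 ^ (2 : ℕ) := by norm_num
    rw [this, Real.logb_pow, h5]; norm_num
  rw [h5, h6, mul_one] at h4
  exact h4

open Filter Topology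

theorem tendsto_L : Tendsto (fun n : ℕ => Real.logb 2 (n : ℝ)) atTop atTop :=
  (Real.tendsto_logb_atTop (by norm_num)).comp tendsto_natCast_atTop_atTop

theorem tendsto_LL : Tendsto (fun n : ℕ => Real.logb 2 (Real.logb 2 (n : ℝ))) atTop atTop :=
  (Real.tendsto_logb_atTop (by norm_num)).comp tendsto_L

theorem eventually_LL_le : ∀ᶠ n : ℕ in atTop,
    Real.logb 2 (Real.logb 2 (n : ℝ)) ≤ Real.logb 2 (n : ℝ) := by
  have h1 : ∀ᶠ x : ℝ in atTop, Real.logb 2 x ≤ x := by
    have h2 := Real.isLittleO_log_id_atTop.def (c := Real.log 2) (Real.log_pos (by norm_num))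
    filter_upwards [h2, eventually_ge_atTop (1 : ℝ)] with x hx hx1
    rw [Real.norm_of_nonneg (Real.log_nonneg hx1), id, Real.norm_of_nonneg (by linarith)] at hx
    rw [Real.logb, div_le_iff₀ (Real.log_pos (by norm_num))]
    linarith
  exact tendsto_L.eventually h1

theorem eventually_sq_le (c : ℝ) (hc : 0 < c) : ∀ᶠ n : ℕ in atTop,
    Real.logb 2 (n : ℝ) ^ 2 ≤ c * n := by
  have hlog : 0 < Real.log 2 := Real.log_pos (by norm_num)
  have h1 : ∀ᶠ x : ℝ in atTop, Real.logb 2 x ^ 2 ≤ c * x := by
    have h2 := (Real.isLittleO_pow_log_id_atTop (n := 2)).def (c := c * Real.log 2 ^ 2)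
      (by positivity)
    filter_upwards [h2, eventually_ge_atTop (1 : ℝ)] with x hx hx1
    rw [Real.norm_of_nonneg (by positivity), id, Real.norm_of_nonneg (by linarith)] at hx
    rw [Real.logb, div_pow, div_le_iff₀ (by positivity)]
    linarith
  exact tendsto_natCast_atTop_atTop.eventually h1

theorem lower_aux (ε : ℝ) (hε : 0 < ε) (hε1 : ε ≤ 1) : ∀ᶠ n : ℕ in atTop,
    (n : ℝ) / Real.logb 2 n +
      (1 - ε) * (n * Real.logb 2 (Real.logb 2 n) / Real.logb 2 n ^ 2) ≤ q n := by
  filter_upwards [eventually_gt_atTop 0, tendsto_L.eventually_ge_atTop 1,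
    tendsto_LL.eventually_ge_atTop 3, tendsto_LL.eventually_gt_atTop (3 / ε),
    eventually_LL_le] with n hn hL hl3 hlε hlL
  set L := Real.logb 2 (n : ℝ) with hLdef
  set l := Real.logb 2 L with hldef
  by_contra hcon
  push Not at hcon
  obtain ⟨hk, h⟩ := le_q_mul hn
  have hkR : (1 : ℝ) ≤ q n := by exact_mod_cast hk
  have hnR : (0 : ℝ) < n := by exact_mod_cast hn
  have hL0 : 0 < L := by linarith
  have hεl : 3 < ε * l := by
    rw [div_lt_iff₀ hε] at hlε
    linarith
  set K := (n : ℝ) / L + (1 - ε) * (n * l / L ^ 2) with hKdef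
  have hKeq : K = n / L * (1 + (1 - ε) * (l / L)) := by
    rw [hKdef]; field_simp
  have hlL1 : l / L ≤ 1 := by rw [div_le_one hL0]; exact hlL
  have hlL0 : 0 ≤ l / L := by positivity
  have hnL : 0 < (n : ℝ) / L := by positivity
  have hK2 : K ≤ n / L * 2 := by
    rw [hKeq]
    apply mul_le_mul_of_nonneg_left _ hnL.le
    nlinarith
  have hK0 : 0 < K := by linarith
  have hlogK : Real.logb 2 K ≤ 1 + L - l := by
    have h1 := Real.logb_le_logb_of_le (b := 2) (by norm_num) hK0 hK2
    rw [Real.logb_mul hnL.ne' (by norm_num), Real.logb_div hnR.ne' hL0.ne',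
      Real.logb_self_eq_one (by norm_num)] at h1
    linarith
  have hlogk : Real.logb 2 (q n) ≤ Real.logb 2 K :=
    Real.logb_le_logb_of_le (by norm_num) (by linarith) hcon.le
  have hlogk0 : 0 ≤ Real.logb 2 (q n) := Real.logb_nonneg (by norm_num) hkR
  have h2 : (n : ℝ) < n := by
    calc (n : ℝ) ≤ q n * (2 + Real.logb 2 (q n)) := h
      _ ≤ K * (3 + L - l) := by
          apply mul_le_mul hcon.le (by linarith) (by linarith) hK0.le
      _ = n * ((1 + (1 - ε) * (l / L)) * (3 + L - l) / L) := by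
          rw [hKeq]; field_simp
      _ < n * 1 := by
          apply mul_lt_mul_of_pos_left _ hnR
          rw [div_lt_one hL0]
          have h3 : (1 + (1 - ε) * (l / L)) * (3 + L - l) =
              L + (3 - ε * l) - (1 - ε) * (l / L) * (l - 3) := by
            field_simp; ring
          rw [h3]
          have h4 : 0 ≤ (1 - ε) * (l / L) * (l - 3) :=
            mul_nonneg (mul_nonneg (by linarith) hlL0) (by linarith)
          linarith
      _ = n := mul_one _
  exact lt_irrefl _ h2

/-- **Main theorem.**  For every `ε > 0` and all large `n`,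
`q n ≥ n / log n + (1 - ε) n log (log n) / (log n)^2`.  In particular there is no constant `C`
with `q n ≤ n / log n + C` for all `n ≥ 2`.  All logarithms are to base 2. -/
theorem result :
    (∀ ε : ℝ, 0 < ε → ∀ᶠ n : ℕ in atTop,
      (n : ℝ) / Real.logb 2 n +
        (1 - ε) * (n * Real.logb 2 (Real.logb 2 n) / Real.logb 2 n ^ 2) ≤ q n) ∧
    ¬ ∃ C : ℝ, ∀ n : ℕ, 2 ≤ n → (q n : ℝ) ≤ n / Real.logb 2 n + C := by
  have hmain : ∀ ε : ℝ, 0 < ε → ∀ᶠ n : ℕ in atTop,
      (n : ℝ) / Real.logb 2 n +
        (1 - ε) * (n * Real.logb 2 (Real.logb 2 n) / Real.logb 2 n ^ 2) ≤ q n := by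
    intro ε hε
    filter_upwards [lower_aux (min ε 1) (lt_min hε one_pos) (min_le_right _ _),
      tendsto_L.eventually_ge_atTop 1, tendsto_LL.eventually_ge_atTop 0] with n hn hL hl
    refine le_trans ?_ hn
    have h1 : 0 ≤ (n : ℝ) * Real.logb 2 (Real.logb 2 n) / Real.logb 2 n ^ 2 := by positivity
    have h2 : min ε 1 ≤ ε := min_le_left _ _
    nlinarith
  refine ⟨hmain, ?_⟩
  rintro ⟨C, hC⟩
  have h1 := hmain (1 / 2) (by norm_num)
  have h2 := eventually_sq_le (1 / (2 * (|C| + 1))) (by positivity)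
  obtain ⟨n, hn1, hn2, hn3, hn4, hn5⟩ := (h1.and (h2.and ((tendsto_L.eventually_ge_atTop 1).and
    ((tendsto_LL.eventually_ge_atTop 1).and (eventually_ge_atTop 2))))).exists
  have hn6 := hC n hn5
  set L := Real.logb 2 (n : ℝ) with hLdef
  set l := Real.logb 2 L with hldef
  have hnR : (0 : ℝ) < n := by
    have : 0 < n := by omega
    exact_mod_cast this
  have hL0 : 0 < L ^ 2 := by positivity
  have h3 : 2 * (|C| + 1) ≤ n / L ^ 2 := by
    rw [le_div_iff₀ hL0]
    have hC0 : 0 < 2 * (|C| + 1) := by positivity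
    have : 2 * (|C| + 1) * L ^ 2 ≤ 2 * (|C| + 1) * (1 / (2 * (|C| + 1)) * n) :=
      mul_le_mul_of_nonneg_left hn2 hC0.le
    calc 2 * (|C| + 1) * L ^ 2 ≤ 2 * (|C| + 1) * (1 / (2 * (|C| + 1)) * n) := this
      _ = n := by field_simp
  have h4 : 2 * (|C| + 1) ≤ n * l / L ^ 2 := by
    have h5 : (n : ℝ) * l / L ^ 2 = n / L ^ 2 * l := by ring
    rw [h5]
    have h6 : 0 ≤ (n : ℝ) / L ^ 2 := by positivity
    nlinarith
  have h5 := le_abs_self C
  linarith

end Pool.Agent.Results.MP_ce8f12_lc.UnboundedExcess
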